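import Pool.Agent.helper77.N3.Spec
import Pool.Agent.helper55.NK.Base

set_option autoImplicit false

namespace Pool.Agent.helper77.N3

open Finset Pool.Agent.NK Pool.Agent.helper37.NF

theorem TB : TB_stmt := by
  intro N T hT h3 h4
  obtain ⟨u, rfl⟩ : ∃ u, T = u + 3 := ⟨T - 3, by omega⟩
  have e1 : u + 3 - 2 = u + 1 := by omega
  have e2 : u + 1 - 1 = u := by omega
  have e3 : u + 3 - 1 = u + 2 := by omega
  unfold MV
  rw [e1, e2, e3]
  set q := (N + 1) / (u + 1) with hq
  have hq4 : q ≤ 4 := by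
    have : q < 5 := by
      rw [hq, Nat.div_lt_iff_lt_mul (by omega)]
      omega
    omega
  have c1 := Nat.choose_succ_right_eq (N - q) u
  have c2 := Nat.choose_succ_right_eq (N - q) (u + 1)
  have hb := Pool.Agent.NK.Base.block_le N (u + 3) (by omega) (by omega) q
  rw [e3] at hb
  have h5 : N - (u + 3) - 1 ≤ N - q - u := by omega
  have h6 : N - (u + 3) - 2 ≤ N - q - (u + 1) := by omega
  calc q * (N - q).choose u * ((N - (u + 3) - 1) * (N - (u + 3) - 2))
      ≤ q * (N - q).choose u * ((N - q - u) * (N - q - (u + 1))) :=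
        Nat.mul_le_mul_left _ (Nat.mul_le_mul h5 h6)
    _ = q * ((N - q).choose u * (N - q - u)) * (N - q - (u + 1)) := by ring
    _ = q * ((N - q).choose (u + 1) * (u + 1)) * (N - q - (u + 1)) := by rw [c1]
    _ = q * ((N - q).choose (u + 1) * (N - q - (u + 1))) * (u + 1) := by ring
    _ = q * ((N - q).choose (u + 1 + 1) * (u + 1 + 1)) * (u + 1) := by rw [c2]
    _ = q * (N - q).choose (u + 2) * ((u + 2) * (u + 1)) := by ring
    _ ≤ (N + 1) / (u + 3) * (N - (N + 1) / (u + 3)).choose (u + 2) * ((u + 2) * (u + 1)) :=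
        Nat.mul_le_mul_right _ hb

end Pool.Agent.helper77.N3
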